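import Pool.Agent.Helper95.AF.Defs

/-! # Project AG (MP_9ee088_an): project AF with the sharp size of the noise. Definitions

`h`, `P` are the parameters of the levels: `AF` is the case `h = 1 / 200`, `P = 1 / 20000`. -/

set_option autoImplicit false
open MeasureTheory Real Set Filter
open scoped ENNReal

namespace Pool.Agent.Helper95.AG

open Pool.Agent.Helper18.UC (nn LL sqo rep toT)
open Pool.Agent.Helper46.QP (TT Td)
open Pool.Agent.Helper82.AN (Ik Ow lawL wt bas eta Hw sq SepR)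
open Pool.Agent.Helper95.AF (st po mt pM shb tst Fa gA nv ip bad Den rr un frc DC Ho)

variable {d : ℕ}

/-- losses and exceptional measures -/
noncomputable def et (h : ℝ) (i : ℕ) : ℝ := h / 2 ^ i

/-- exponents -/
noncomputable def pp (h P : ℝ) : ℕ → ℝ
  | 0 => P
  | i + 1 => pp h P i * et h i / 16

/-- the functional of the level `i`, `n` the length of the windows, `L` about `log |a|` -/
noncomputable def Rl (h P a L : ℝ) (i n : ℕ) (b : ℕ → ℝ) : ℝ :=
  rr a n (Real.exp (-(pp h P i * n * L))) (Real.exp (-(2 * pp h P i * n * L))) (2 * n * L) b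

/-- exceptional events with the margin `y` -/
def Ev0 (h P a L : ℝ) (n : ℕ) (y : ℝ) : Set (ℕ → ℝ) := {b | Rl h P a L 0 n b < (1 - et h 0) * n * L - y}
def EvS (h P a L : ℝ) (i n J : ℕ) (y : ℝ) : Set (ℕ → ℝ) :=
  {b | Rl h P a L (i + 1) (J * (n + 5)) b <
    (∑ j ∈ Finset.range J, Rl h P a L i n (shb b (j * (n + 5) + 5))) - et h i * (J * (n + 5) : ℕ) * L - y}

/-- the box of parameters -/
def Bx (k : ℕ) (L : ℝ) : Set (ℝ × (Fin (k + 1) → ℝ) × Td d) :=
  {u | Real.exp L ≤ |u.1| ∧ |u.1| ≤ Real.exp (L + 1) ∧ ∀ i, |u.2.1 i| ≤ Real.exp (L + 1)}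

/-- **Interface**: growth `r θ` outside small sets of every fibre, with a large mean -/
def Lv (κ : ℝ) (α : Td d) (a : ℝ) (b : Td d → ℝ) : Prop :=
  ∀ ε : ℝ, 0 < ε → ∀ n₀ : ℕ, ∃ N ≥ n₀, ∃ r : Td d → ℝ, Measurable r ∧ (∀ θ, 0 ≤ r θ) ∧ (∃ K, ∀ θ, r θ ≤ K) ∧
    (∀ θ, volume {z : TT | Real.log (gA α a b N (θ, z)) < r θ} ≤ ENNReal.ofReal ε) ∧
    (1 - κ) * N * Real.log |a| ≤ ∫ θ, r θ

/-- the Lyapunov function of the base step, of the real numbers `E = pM (m + 1) 0 0`, `E' = pM m 0 0` and the position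
`x` at the time `m + 1` (the next noise, at the time `m`, moves `x`) -/
noncomputable def lyr (ε s E E' x : ℝ) : ℝ≥0∞ :=
  ip ((1 + ε) / 16) |E| * ENNReal.ofReal (max |E| |E'|) ^ (1 / 16 : ℝ) * ip (1 / 16) (|Real.cos (2 * π * x)| + s)

/-- the Lyapunov function along the orbit -/
noncomputable def ly (ε s a : ℝ) (b : ℕ → ℝ) (m : ℕ) (q : ℝ × ℝ) : ℝ≥0∞ :=
  lyr ε s (pM a b (m + 1) q 0 0) (pM a b m q 0 0) (po a b (m + 1) q).1

end Pool.Agent.Helper95.AG
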