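import Pool.Agent.Helper95.AG.Whole
import Pool.Agent.Helper5.AG.AllPar
import Pool.Agent.Helper83.AG.FX
import Pool.Agent.Helper82.AN.Eta

/-! # Project AG: all parameters at once, on the whole phase space, sharp size of the noise -/

set_option autoImplicit false
open MeasureTheory Real Set Filter Topology
open scoped ENNReal

namespace Pool.Agent.Helper95.AG

open Pool.Agent.Helper46.QP (TT Td)
open Pool.Agent.Helper82.AN (Ik Ow lawL wt bas eta Hw sq)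
open Pool.Agent.Helper95.AF (frc DC Ho)

variable {d : ℕ}

theorem ho_cont {f : Td d → ℝ} (h : Ho f) : Continuous f := by
  obtain ⟨K, r, hr, h⟩ := h
  rw [continuous_iff_continuousAt]
  intro x
  rw [ContinuousAt, tendsto_iff_dist_tendsto_zero]
  have h1 : Tendsto (fun y => K * dist y x ^ r) (𝓝 x) (𝓝 0) := by
    have h2 : Tendsto (fun y : Td d => dist y x) (𝓝 x) (𝓝 0) := by
      have := (tendsto_id (x := 𝓝 x)).dist (tendsto_const_nhds (x := x))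
      simpa using this
    have h3 := h2.rpow_const (p := r) (Or.inr hr.le)
    rw [Real.zero_rpow hr.ne'] at h3
    simpa using h3.const_mul K
  exact squeeze_zero (fun _ => dist_nonneg) (fun y => h y x) h1

theorem WholeA.mono {κ κ' : ℝ} {α : Td d} {a : ℝ} {b : Td d → ℝ} (h : WholeA κ α a b) (ha : 1 ≤ |a|) (hk : κ ≤ κ') :
    WholeA κ' α a b := by
  obtain ⟨h1, h2, Λ, h3, h4⟩ := h
  refine ⟨h1, h2, Λ, le_trans ?_ h3, h4⟩
  exact mul_le_mul_of_nonneg_right (by linarith) (Real.log_nonneg ha)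

/-- **main theorem**: the force `∑ s i e i + q η`, all parameters at once -/
theorem final {γ τ : ℝ} (hd : 0 < d) (hγ : 0 < γ) (h1 : 1 / d ≤ τ) (h2 : τ * γ < 1) {k : ℕ} {e : Fin k → Td d → ℝ}
    (he : ∀ i, Ho (e i)) : ∀ᵐ w ∂lawL d, ∀ ε D : ℝ, 0 < ε → 0 < D → ∃ A : ℝ, ∀ α : Td d,
      (∀ k : Fin d → ℤ, k ≠ 0 → ∑ m, k m • α m ≠ 0) → DC D τ α → ∀ (a q : ℝ) (s : Fin k → ℝ), A ≤ |a| →
      |a| ^ (-1 + ε) ≤ |q| → |q| ≤ |a| → (∀ i, |s i| ≤ |a|) →
      WholeA ε α a (fun θ => (∑ i, s i * e i θ) + q * eta γ w θ) := by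
  have key : ∀ m : ℕ, ∀ᵐ w ∂lawL d, ∀ D : ℝ, 0 < D → ∃ A : ℝ, 1 ≤ A ∧ ∀ (α : Td d) (a : ℝ) (U : Fin (k + 1) → ℝ),
      DC D τ α → A ≤ |a| → |a| ^ (2 * (1 / ((m : ℝ) + 2)) - 1) ≤ |U 0| → (∀ i, |U i| ≤ |a|) →
        Lv (9 * (1 / ((m : ℝ) + 2) / 100)) α a (frc γ e U w) := by
    intro m
    have hm : (0 : ℝ) < (m : ℝ) + 2 := by positivity
    have h3 : 1 / ((m : ℝ) + 2) ≤ 1 / 2 := one_div_le_one_div_of_le two_pos (by linarith [(Nat.cast_nonneg m : (0 : ℝ) ≤ m)])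
    exact Pool.Agent.Helper5.AG.all_par (by positivity) h3 (by positivity) (by linarith) hd hγ h1 h2 he
  filter_upwards [ae_all_iff.2 key, Pool.Agent.Helper82.AN.Hw_ae (d := d) hγ] with w h3 h4 ε D hε hD
  obtain ⟨m, hm⟩ := exists_nat_gt (2 / ε)
  have hm0 : (0 : ℝ) < (m : ℝ) + 2 := by positivity
  have hm1 : 2 * (1 / ((m : ℝ) + 2)) ≤ ε := by
    rw [mul_one_div, div_le_iff₀ hm0]
    rw [div_lt_iff₀ hε] at hm
    nlinarith
  have hm2 : 1 / ((m : ℝ) + 2) ≤ 1 / 2 := one_div_le_one_div_of_le two_pos (by linarith [(Nat.cast_nonneg m : (0 : ℝ) ≤ m)])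
  have hm3 : 0 < 1 / ((m : ℝ) + 2) := by positivity
  obtain ⟨A, hA1, hA⟩ := h3 m D hD
  obtain ⟨A₁, hA₁⟩ := whole_of (κ := 9 * (1 / ((m : ℝ) + 2) / 100)) (by linarith)
    fun d α hind a ha b hb hL lam hm hinv hl => Pool.Agent.Helper83.AG.fin_exp hind ha hb hL hm hinv hl
  refine ⟨max A A₁, fun α hind hα a q s ha hq hq1 hs => ?_⟩
  have ha1 : 1 ≤ |a| := hA1.trans ((le_max_left _ _).trans ha)
  have hq' : |a| ^ (2 * (1 / ((m : ℝ) + 2)) - 1) ≤ |(Fin.cons q s : Fin (k + 1) → ℝ) 0| :=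
    (Real.rpow_le_rpow_of_exponent_le ha1 (by linarith)).trans hq
  have h5 := hA α a (Fin.cons q s) hα ((le_max_left _ _).trans ha) hq'
    (fun i => Fin.cases hq1 (fun j => hs j) i)
  have h6 : frc γ e (Fin.cons q s : Fin (k + 1) → ℝ) w = fun θ => (∑ i, s i * e i θ) + q * eta γ w θ := rfl
  rw [h6] at h5
  refine (hA₁ d α hind a ((le_max_right _ _).trans ha) _ ?_ h5).mono ha1 (by linarith)
  exact (continuous_finsetSum _ fun i _ => (ho_cont (he i)).const_mul _).add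
    ((Pool.Agent.Helper82.AN.eta_cont h4).const_mul q)

end Pool.Agent.Helper95.AG
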